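import Mathlib
import Pool.Agent.H77.IC.Main

/-!
# MP_f2dc7b_co: the shadow inequality for convex 4-polytopes and icosahedral facets

For every convex 4-polytope `P` (hull of the finite set `S`, nonempty interior) and every
surjective linear map `π` to the plane the number of pairs (facet `F`, vertex of `F` which `π`
maps to the interior of the shadow `π '' F`) is at most `2 (f_0 - 3)`. At most `f_0 - 3` facets
are affinely regular icosahedra. If all facets are combinatorial icosahedra then every vertex
lies in at least twelve facets, `f_0 <= f_3`, for every `π` at least three facets have at most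
one vertex inside their shadow, for some `π` at least three facets have a shadow with at least
eleven vertices, and at least three facets are not affinely regular icosahedra.
-/

set_option autoImplicit false

open Set Module

namespace Pool.Agent.Results.MP_f2dc7b_co.ShadowInequality

open Pool.Agent.H77.IC

theorem result (S : Finset E4) (hS : (interior (convexHull ℝ (S : Set E4))).Nonempty) :
    (∀ π : E4 →ₗ[ℝ] (Fin 2 → ℝ), Function.Surjective π →
      {p : Set E4 × E4 | IsFacet (convexHull ℝ (S : Set E4)) p.1 ∧ p.2 ∈ inner π p.1}.Finite ∧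
      {p : Set E4 × E4 | IsFacet (convexHull ℝ (S : Set E4)) p.1 ∧
        p.2 ∈ inner π p.1}.ncard + 6 ≤
        2 * ((convexHull ℝ (S : Set E4)).extremePoints ℝ).ncard) ∧
    {F : Set E4 | IsFacet (convexHull ℝ (S : Set E4)) F ∧ IsRegIco F}.ncard + 3 ≤
      ((convexHull ℝ (S : Set E4)).extremePoints ℝ).ncard ∧
    ((∀ F, IsFacet (convexHull ℝ (S : Set E4)) F → IsIco F) →
      (∀ x ∈ (convexHull ℝ (S : Set E4)).extremePoints ℝ,
        12 ≤ {F : Set E4 | IsFacet (convexHull ℝ (S : Set E4)) F ∧ x ∈ F}.ncard) ∧
      ((convexHull ℝ (S : Set E4)).extremePoints ℝ).ncard ≤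
        {F : Set E4 | IsFacet (convexHull ℝ (S : Set E4)) F}.ncard ∧
      (∀ π : E4 →ₗ[ℝ] (Fin 2 → ℝ), Function.Surjective π →
        3 ≤ {F : Set E4 | IsFacet (convexHull ℝ (S : Set E4)) F ∧
          (inner π F).ncard ≤ 1}.ncard) ∧
      (∃ π : E4 →ₗ[ℝ] (Fin 2 → ℝ), 3 ≤ {F : Set E4 |
        IsFacet (convexHull ℝ (S : Set E4)) F ∧ 11 ≤ ((π '' F).extremePoints ℝ).ncard}.ncard) ∧
      3 ≤ {F : Set E4 | IsFacet (convexHull ℝ (S : Set E4)) F ∧ ¬ IsRegIco F}.ncard) :=
  main S hS

end Pool.Agent.Results.MP_f2dc7b_co.ShadowInequality
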