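import Mathlib
import Pool.Agent.H2.Sturm.Defs
import Pool.Agent.H2.Sturm.Core

set_option autoImplicit false

namespace Pool.Agent.H2.Kept.SturmianPairs

open Pool.Agent.H2.Sturm

/-- After dropping finitely many letters every mechanical word is floor coded. -/
lemma normalize {θ : ℝ} (hθ : Irrational θ) {s : ℕ → ℤ} (hs : IsMechanical θ s) :
    ∃ (k : ℕ) (ρ : ℝ), 1 ≤ k ∧ ∀ n, s (k + n) = mech θ ρ n := by
  obtain ⟨ρ, h | h⟩ := hs
  · refine ⟨1, ρ + (1 : ℕ) * θ, le_refl _, fun n => ?_⟩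
    rw [← mech_shift, h (1 + n)]
    unfold mech
    push_cast
    rfl
  · -- at most one of the numbers `n θ + ρ` is an integer
    have hk : ∃ k : ℕ, 1 ≤ k ∧ ∀ n : ℕ, k ≤ n → ∀ z : ℤ, (n : ℝ) * θ + ρ ≠ z := by
      by_cases hex : ∃ n : ℕ, ∃ z : ℤ, (n : ℝ) * θ + ρ = z
      · obtain ⟨n0, z0, hz0⟩ := hex
        refine ⟨n0 + 1, by omega, fun n hn z hz => ?_⟩
        have h1 : ((n - n0 : ℕ) : ℝ) * θ = ((z - z0 : ℤ) : ℝ) := by
          rw [Nat.cast_sub (by omega)]; push_cast; linarith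
        have h2 : Irrational (((n - n0 : ℕ) : ℝ) * θ) := by
          simpa using hθ.natCast_mul (m := n - n0) (by omega)
        exact h2 ⟨((z - z0 : ℤ) : ℚ), by rw [h1]; push_cast; rfl⟩
      · push Not at hex
        exact ⟨1, le_refl _, fun n _ z => hex n z⟩
    obtain ⟨k, hk1, hk⟩ := hk
    have hceil : ∀ n : ℕ, k ≤ n → ⌈(n : ℝ) * θ + ρ⌉ = ⌊(n : ℝ) * θ + ρ⌋ + 1 := by
      intro n hn
      rw [Int.ceil_eq_iff]
      push_cast
      constructor
      · have h1 := Int.floor_le ((n : ℝ) * θ + ρ)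
        have h2 := hk n hn ⌊(n : ℝ) * θ + ρ⌋
        have := lt_of_le_of_ne h1 (Ne.symm h2)
        linarith
      · exact (Int.lt_floor_add_one _).le
    refine ⟨k, ρ + k * θ, hk1, fun n => ?_⟩
    rw [← mech_shift, h (k + n)]
    have e1 := hceil (k + n) (by omega)
    have e2 := hceil (k + n + 1) (by omega)
    unfold mech
    have e3 : (((k + n : ℕ) : ℝ) + 1) = ((k + n + 1 : ℕ) : ℝ) := by push_cast; ring
    rw [e3, e2, e1]
    ring

lemma CFTail_shift {x : ℝ} {k : ℕ} {w : ℕ → List ℕ} (h : CFTail x k w) (m : ℕ) :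
    CFTail x (k + (cat w m).length) (fun j => w (m + j)) := by
  intro n i hi
  have hlen : (cat w m).length + i < (cat w (m + n)).length := by
    rw [cat_add, List.length_append]
    exact Nat.add_lt_add_left hi _
  have h1 := h (m + n) ((cat w m).length + i) hlen
  rw [Nat.add_assoc, h1]
  congr 1
  have h2 : (List.range (m + n)).flatMap w = cat w m ++ (List.range n).flatMap (fun j => w (m + j)) :=
    cat_add w m n
  simp only [h2]
  rw [List.getElem_append_right (by omega)]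
  simp

/-- **Littlewood's conjecture for pairs of Sturmian continued fractions of equal slope**, with a power gain. -/
theorem result (θ : ℝ) (hθ : Irrational θ) (s t : ℕ → ℤ) (hs : IsMechanical θ s) (ht : IsMechanical θ t)
    (W : ℤ → List ℕ) (hne : ∀ a, W a ≠ []) (hpos : ∀ a, ∀ x ∈ W a, 0 < x)
    (α β : ℝ) (k l : ℕ) (hα : CFTail α k (fun n => W (s n)))
    (hβ : CFTail β l (fun n => (W (t n)).reverse))
    (c : ℝ) (hc : c < 1 / 3) (ε : ℝ) (hε : 0 < ε) (N : ℕ) :
    ∃ q : ℕ, N ≤ q ∧ 0 < q ∧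
      (q : ℝ) ^ (1 + c) * |(q : ℝ) * α - (round ((q : ℝ) * α) : ℝ)|
        * |(q : ℝ) * β - (round ((q : ℝ) * β) : ℝ)| < ε := by
  obtain ⟨ks, ρ, hks, hsρ⟩ := normalize hθ hs
  obtain ⟨kt, ρ', hkt, htρ⟩ := normalize hθ ht
  have hne' : ∀ a, (W a).reverse ≠ [] := fun a h => hne a (List.reverse_eq_nil_iff.mp h)
  have hpos' : ∀ a, ∀ x ∈ (W a).reverse, 0 < x := fun a x hx => hpos a x (List.mem_reverse.mp hx)
  -- shifted tails
  have hα' := CFTail_shift hα ks
  have hβ' := CFTail_shift hβ kt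
  simp only [hsρ] at hα'
  simp only [htρ] at hβ'
  obtain ⟨k', hk'⟩ : ∃ k', k + (cat (fun n => W (s n)) ks).length = k' + 1 := by
    have := cat_length (w := fun n => W (s n)) (fun j => hne _) ks
    exact ⟨k + (cat (fun n => W (s n)) ks).length - 1, by omega⟩
  obtain ⟨l', hl'⟩ : ∃ l', l + (cat (fun n => (W (t n)).reverse) kt).length = l' + 1 := by
    have := cat_length (w := fun n => (W (t n)).reverse) (fun j => hne' _) kt
    exact ⟨l + (cat (fun n => (W (t n)).reverse) kt).length - 1, by omega⟩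
  rw [hk'] at hα'
  rw [hl'] at hβ'
  set c0 : ℝ := max c 0 with hc0
  have hc0nn : 0 ≤ c0 := le_max_right _ _
  have hc0lt : c0 < 1 / 3 := max_lt hc (by norm_num)
  obtain ⟨K1, hK1⟩ := core hθ (W := W) (W' := fun a => (W a).reverse) (fun _ => rfl) hpos hne hα' hβ' hc0nn hc0lt
  obtain ⟨K2, hK2⟩ := core hθ (W := fun a => (W a).reverse) (W' := W) (fun a => (List.reverse_reverse _).symm)
    hpos' hne' hβ' hα' hc0nn hc0lt
  -- choose a large length
  set η : ℝ := (1 - 3 * c0) * (Real.log 2 / 8) with hη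
  have hη0 : 0 < η := by
    have h1 : 0 < 1 - 3 * c0 := by linarith
    have h2 : 0 < Real.log 2 := Real.log_pos (by norm_num)
    positivity
  obtain ⟨M1, hM1⟩ := exists_nat_gt ((max K1 K2 - Real.log ε) / η)
  set M : ℕ := max M1 (2 * (N + 1)) with hM
  obtain ⟨n, r, hMn, hrn, hor⟩ := exists_mirror hθ ρ ρ' M
  have hnN : N + 1 ≤ 2 ^ (n / 2) := by
    have h1 : N + 1 ≤ n / 2 := by
      have : 2 * (N + 1) ≤ n := le_trans (le_max_right _ _) hMn
      omega
    exact h1.trans (Nat.lt_two_pow_self).le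
  have hexp : ∀ K : ℝ, K ≤ max K1 K2 → Real.exp (K - η * n) < ε := by
    intro K hK
    rw [← Real.lt_log_iff_exp_lt hε]
    have h1 : (M1 : ℝ) ≤ n := by exact_mod_cast (le_max_left _ _).trans hMn
    rw [div_lt_iff₀ hη0] at hM1
    nlinarith
  have mono : ∀ q : ℕ, 1 ≤ q → ∀ x y : ℝ, 0 ≤ x → 0 ≤ y →
      (q : ℝ) ^ (1 + c) * x * y ≤ (q : ℝ) ^ (1 + c0) * x * y := by
    intro q hq x y hx hy
    have h1 : (1 : ℝ) ≤ q := by exact_mod_cast hq
    apply mul_le_mul_of_nonneg_right _ hy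
    apply mul_le_mul_of_nonneg_right _ hx
    apply Real.rpow_le_rpow_of_exponent_le h1
    have := le_max_left c 0
    linarith
  rcases hor with h | h
  · obtain ⟨q, hq1, hq2⟩ := hK1 n r hrn h
    refine ⟨q, by omega, by omega, ?_⟩
    refine lt_of_le_of_lt (mono q (by omega) _ _ (abs_nonneg _) (abs_nonneg _)) ?_
    exact lt_of_le_of_lt hq2 (hexp K1 (le_max_left _ _))
  · obtain ⟨q, hq1, hq2⟩ := hK2 n r hrn h
    refine ⟨q, by omega, by omega, ?_⟩
    refine lt_of_le_of_lt (mono q (by omega) _ _ (abs_nonneg _) (abs_nonneg _)) ?_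
    rw [mul_right_comm]
    exact lt_of_le_of_lt hq2 (hexp K2 (le_max_right _ _))

end Pool.Agent.H2.Kept.SturmianPairs
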