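import Pool.Agent.H20.Edm.MatPart
import Pool.Agent.H20.Edm.Minor

namespace Pool.Agent.Results.MP_966f71_lc.SymmetricWittOne

open Matrix Module Pool.Agent.H20.Edm

/-- Rank over the field of rational functions of a square matrix of polynomials over `F`. -/
noncomputable def symRank {σ F : Type} [Field F] {n : ℕ}
    (M : Matrix (Fin n) (Fin n) (MvPolynomial σ F)) : ℕ :=
  (M.map (algebraMap (MvPolynomial σ F) (FractionRing (MvPolynomial σ F)))).rank

/-- The matrix `B(y) + ∑ x_i A_i` with polynomial part `B` in the variables `y_k`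
(`k : Fin c`) and linear part in the further variables `x_i` (`i : Fin N`). -/
noncomputable def mixedMatrix {F : Type} [Field F] {n N c : ℕ}
    (B : Matrix (Fin n) (Fin n) (MvPolynomial (Fin c) F))
    (A : Fin N → Matrix (Fin n) (Fin n) F) :
    Matrix (Fin n) (Fin n) (MvPolynomial (Fin c ⊕ Fin N) F) :=
  B.map (MvPolynomial.rename Sum.inl) + ∑ i, (MvPolynomial.X (Sum.inr i) :
    MvPolynomial (Fin c ⊕ Fin N) F) • (A i).map MvPolynomial.C

variable {F : Type} [Field F] {n N c : ℕ}

lemma mixed_eval (B : Matrix (Fin n) (Fin n) (MvPolynomial (Fin c) F))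
    (A : Fin N → Matrix (Fin n) (Fin n) F) (x : Fin c ⊕ Fin N → F) :
    (mixedMatrix B A).map (MvPolynomial.eval x)
      = B.map (MvPolynomial.eval (fun k => x (Sum.inl k))) + ∑ i, x (Sum.inr i) • A i := by
  ext i j
  simp only [mixedMatrix, Matrix.map_apply, Matrix.add_apply, Matrix.sum_apply, Matrix.smul_apply,
    smul_eq_mul, map_add, map_sum, map_mul, MvPolynomial.eval_X, MvPolynomial.eval_C,
    MvPolynomial.eval_rename]
  rfl

lemma mixed_degree (B : Matrix (Fin n) (Fin n) (MvPolynomial (Fin c) F))
    (A : Fin N → Matrix (Fin n) (Fin n) F) (d : ℕ)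
    (hd : ∀ i j k, (B i j).degreeOf k ≤ d) (i j : Fin n) (k : Fin c) :
    (mixedMatrix B A i j).degreeOf (Sum.inl k) ≤ d := by
  simp only [mixedMatrix, Matrix.map_apply, Matrix.add_apply, Matrix.sum_apply, Matrix.smul_apply,
    smul_eq_mul]
  refine (MvPolynomial.degreeOf_add_le _ _ _).trans (max_le ?_ ?_)
  · rw [MvPolynomial.degreeOf_rename_of_injective Sum.inl_injective]
    exact hd i j k
  · refine (MvPolynomial.degreeOf_sum_le _ _ _).trans (Finset.sup_le fun l _ => ?_)
    refine (MvPolynomial.degreeOf_mul_C_le _ _ _).trans ?_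
    rw [MvPolynomial.degreeOf_X_of_ne (by simp)]
    exact Nat.zero_le _

/-- **Symmetric matrices with coefficient matrices of Witt index at most one.** -/
theorem result [Infinite F] (h2 : (2 : F) ≠ 0) {d : ℕ}
    (B : Matrix (Fin n) (Fin n) (MvPolynomial (Fin c) F)) (hB : B.IsSymm)
    (hd : ∀ i j k, (B i j).degreeOf k ≤ d)
    (A : Fin N → Matrix (Fin n) (Fin n) F) (hA : ∀ i, (A i).IsSymm)
    (hW : ∀ i, WittIndexLeOne (A i)) (T : Finset F) (hT : n * d < T.card) (r : ℕ) :
    symRank (mixedMatrix B A) < r ↔
      ∀ y : Fin c → F, (∀ k, y k ∈ T) → ∃ U : Submodule F (Fin n → F),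
        finrank F (imageSpace (B.map (MvPolynomial.eval y)) A U) + n < r + finrank F U := by
  classical
  constructor
  · intro hr y _
    apply exists_shrunk h2
    · change (B.map (MvPolynomial.eval y))ᵀ = B.map (MvPolynomial.eval y)
      rw [← Matrix.transpose_map, hB.eq]
    · exact hA
    · exact hW
    · intro z
      have h1 := rank_eval_le (mixedMatrix B A) (Sum.elim y z)
      rw [mixed_eval] at h1
      simp only [Sum.elim_inl, Sum.elim_inr] at h1
      exact lt_of_le_of_lt h1 hr
  · intro h
    by_contra hcon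
    push Not at hcon
    obtain ⟨f, g, hfg⟩ := (sym_minor_iff (mixedMatrix B A) r).1 hcon
    apply hfg
    set δ := ((mixedMatrix B A).submatrix f g).det with hδ
    have hrn : r ≤ n := by
      refine hcon.trans ?_
      have := Matrix.rank_le_width ((mixedMatrix B A).map (algebraMap
        (MvPolynomial (Fin c ⊕ Fin N) F) (FractionRing (MvPolynomial (Fin c ⊕ Fin N) F))))
      exact this
    -- finite sets for the linear variables
    have hS : ∀ i : Fin N, ∃ s : Finset F, δ.degreeOf (Sum.inr i) < s.card := by
      intro i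
      obtain ⟨s, hs⟩ := Infinite.exists_subset_card_eq F (δ.degreeOf (Sum.inr i) + 1)
      exact ⟨s, by omega⟩
    choose S hS using hS
    apply MvPolynomial.eq_zero_of_eval_zero_at_prod_finset δ (Sum.elim (fun _ => T) S)
    · rintro (k | i)
      · simp only [Sum.elim_inl]
        refine lt_of_le_of_lt ?_ hT
        refine (degreeOf_det_le _ _ d ?_).trans (Nat.mul_le_mul_right d hrn)
        intro i j
        exact mixed_degree B A d hd _ _ k
      · simpa using hS i
    · intro x hx
      by_contra h0
      have hy : ∀ k, x (Sum.inl k) ∈ T := fun k => by simpa using hx (Sum.inl k)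
      obtain ⟨U, hU⟩ := h (fun k => x (Sum.inl k)) hy
      have h3 := rank_lt_of_shrunk _ A r U hU (fun i => x (Sum.inr i))
      rw [← mixed_eval] at h3
      have h4 : r ≤ ((mixedMatrix B A).map (MvPolynomial.eval x)).rank := by
        apply le_rank_of_minor _ f g
        rw [eval_minor]
        exact h0
      omega

end Pool.Agent.Results.MP_966f71_lc.SymmetricWittOne
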